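import Pool.Agent.Helper40.HV.DIP
import Pool.Agent.Helper26.HW.Stmts

/-! # HW: the row DIE (from the DIP file of helper40) -/

set_option autoImplicit false

namespace Pool.Agent.Helper19.HW

open MeasureTheory Filter Topology Pool.Agent.Helper95.PW Pool.Agent.Helper95.LN
open Pool.Agent.Helper95.HV Pool.Agent.Helper26.HW Pool.Agent.Helper40.HV
open Pool.Agent.Helper84.LN (eid_cd)
open Pool.Agent.Helper64.HS (nr_tri nr_comm)

theorem die_pos (h1 : ST_PHA) (h2 : ST_PHB) {b : ℝ} (hb : 0 < b) {n : ℕ}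
    (a x : Fin n → R3) : 0 ≤ ∑ k, ∑ l, Iv b (a k) (x k) (a l) (x l) := by
  have h0 : 0 ≤ ∫ w, ∑ m, (∑ k, pd m (Pv b (a k) (x k)) w) ^ 2 :=
    integral_nonneg fun w => Finset.sum_nonneg fun m _ => sq_nonneg _
  have hi : ∀ k l, Integrable (fun w => ∑ m, pd m (Pv b (a k) (x k)) w *
      pd m (Pv b (a l) (x l)) w) := by
    intro k l
    obtain ⟨A, -, hA⟩ := Pv_dec h1 h2 hb (a k) (x k)
    obtain ⟨B, -, hB⟩ := Pv_dec h1 h2 hb (a l) (x l)
    exact integrable_finsetSum _ fun m _ => dip_int (eid_cd m (Pv_cd h1 hb _ _)).continuous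
      (eid_cd m (Pv_cd h1 hb _ _)).continuous (hA m) (hB m)
  have e1 : ∀ w, ∑ m, (∑ k, pd m (Pv b (a k) (x k)) w) ^ 2 =
      ∑ k, ∑ l, ∑ m, pd m (Pv b (a k) (x k)) w * pd m (Pv b (a l) (x l)) w := by
    intro w
    have e2 : ∀ m, (∑ k, pd m (Pv b (a k) (x k)) w) ^ 2 =
        ∑ k, ∑ l, pd m (Pv b (a k) (x k)) w * pd m (Pv b (a l) (x l)) w := by
      intro m
      rw [pow_two, Finset.sum_mul_sum]
    rw [Finset.sum_congr rfl fun m _ => e2 m, Finset.sum_comm]
    refine Finset.sum_congr rfl fun k _ => ?_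
    rw [Finset.sum_comm]
  simp_rw [e1] at h0
  rw [integral_finsetSum _ fun k _ => integrable_finsetSum _ fun l _ => hi k l] at h0
  rw [Finset.sum_congr rfl fun k _ => integral_finsetSum _ fun l _ => hi k l] at h0
  exact h0

theorem die_cross (h1 : ST_PHA) (h2 : ST_PHB) (h3 : ST_PHC) {b : ℝ} (hb : 0 < b) {n : ℕ}
    (a x : Fin n → R3) (u : R3) :
    2 * ∑ k, ∑ l, Iv b (a k) (x k) u (x l) ≤
      (∑ k, ∑ l, EE b (a k) (x k) (a l) (x l)) +
      2 * (∑ k, ∑ l, EE b (a k) (x k) u (x l)) + ∑ k, ∑ l, EE b u (x k) u (x l) := by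
  have hY := dip_young h1 h2 h3 hb (Fin.append a (fun _ : Fin n => u)) (Fin.append x x)
  have p1 := die_pos h1 h2 hb a x
  have p2 := die_pos h1 h2 hb (fun _ : Fin n => u) x
  simp only [Fin.sum_univ_add, Fin.append_left, Fin.append_right,
    Finset.sum_add_distrib] at hY
  have c1 : ∑ k, ∑ l, Iv b u (x k) (a l) (x l) = ∑ k, ∑ l, Iv b (a k) (x k) u (x l) := by
    rw [Finset.sum_comm]
    exact Finset.sum_congr rfl fun k _ => Finset.sum_congr rfl fun l _ => Iv_comm _ _ _ _ _
  have c2 : ∑ k, ∑ l, EE b u (x k) (a l) (x l) = ∑ k, ∑ l, EE b (a k) (x k) u (x l) := by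
    rw [Finset.sum_comm]
    exact Finset.sum_congr rfl fun k _ => Finset.sum_congr rfl fun l _ => EE_comm _ _ _ _ _
  rw [c1, c2] at hY
  linarith

theorem Tq_sym (z v u : R3) : Tq z v u = Tq z u v := by
  unfold Tq
  simp only [Fin.sum_univ_three]
  ring

theorem Tq_zero2 (z v : R3) : Tq z v 0 = 0 := by
  unfold Tq
  simp

theorem Tq_smul1 (z v u : R3) (c : ℝ) : Tq z (fun m => c * v m) u = c * Tq z v u := by
  unfold Tq
  simp only [Fin.sum_univ_three]
  ring

/-- the sum of the row for a vector `u` -/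
noncomputable def SS {n M : ℕ} (d : ℝ) (X : Fin M → R3) (x a : Fin n → R3) (u : R3) : ℝ :=
  ∑ i, ∑ k, (if nr (x k - X i) ≤ d / 2 then
      (∑ l, if nr (x l - X i) < 3 / 2 * d then 0 else Tq (x k - x l) u (a k)) else 0)

theorem SS_smul {n M : ℕ} (d : ℝ) (X : Fin M → R3) (x a : Fin n → R3) (u : R3) (c : ℝ) :
    SS d X x a (fun m => c * u m) = c * SS d X x a u := by
  unfold SS
  rw [Finset.mul_sum]
  refine Finset.sum_congr rfl fun i _ => ?_
  rw [Finset.mul_sum]
  refine Finset.sum_congr rfl fun k _ => ?_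
  split_ifs
  · rw [Finset.mul_sum]
    refine Finset.sum_congr rfl fun l _ => ?_
    split_ifs
    · simp
    · exact Tq_smul1 _ _ _ _
  · simp

theorem die_key (h0 : ST_MVP) (h1 : ST_PHA) (h2 : ST_PHB) (h3 : ST_PHC) {d : ℝ} (hd : 0 < d) :
    ∃ C : ℝ, 0 < C ∧ ∀ (n M : ℕ) (X : Fin M → R3) (x a : Fin n → R3) (u : R3) (K : ℝ),
      Sep X d → (∀ m, |u m| ≤ K) → (∀ k m, |a k m| ≤ K) →
      (∀ k, (∀ i, d / 2 < nr (x k - X i)) → a k = 0) →
      -(kap * SS d X x a u) ≤ C * K ^ 2 * (∑ i, cnt X (3 / 2 * d) x i ^ 2 +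
        ∑ k, ∑ l, (if nr (x k - x l) < d / 32 then (1 : ℝ) else 0)) := by
  have hb : 0 < d / 128 := by positivity
  obtain ⟨C, hC, hnear⟩ := dip_near h1 h2 h3 hb
  refine ⟨2 * C, by positivity, fun n M X x a u K hX hu ha hz => ?_⟩
  classical
  set b := d / 128 with hbd
  have hK2 : 0 ≤ K ^ 2 := sq_nonneg _
  set P : ℝ := ∑ k, ∑ l, (if nr (x k - x l) < d / 32 then (1 : ℝ) else 0) with hP
  set N : Fin n → Fin n → ℝ := fun k l =>
    ∑ i, (if nr (x k - X i) < 3 / 2 * d then (1:ℝ) else 0) *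
      (if nr (x l - X i) < 3 / 2 * d then 1 else 0) with hN
  have hN0 : ∀ k l, 0 ≤ N k l := fun k l => Finset.sum_nonneg fun i _ => by
    split_ifs <;> norm_num
  have hN1 : ∀ k l i, nr (x k - X i) < 3 / 2 * d → nr (x l - X i) < 3 / 2 * d →
      1 ≤ N k l := by
    intro k l i hk hl
    refine le_trans (le_of_eq ?_) (Finset.single_le_sum (f := fun i =>
      (if nr (x k - X i) < 3 / 2 * d then (1:ℝ) else 0) *
      (if nr (x l - X i) < 3 / 2 * d then 1 else 0)) (fun i _ => by
        split_ifs <;> norm_num) (Finset.mem_univ i))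
    rw [if_pos hk, if_pos hl, one_mul]
  have hNs : ∑ k, ∑ l, N k l = ∑ i, cnt X (3 / 2 * d) x i ^ 2 := by
    have e1 : ∀ i, cnt X (3 / 2 * d) x i ^ 2 = ∑ k, ∑ l,
        (if nr (x k - X i) < 3 / 2 * d then (1:ℝ) else 0) *
        (if nr (x l - X i) < 3 / 2 * d then 1 else 0) := by
      intro i
      unfold cnt
      rw [pow_two, Finset.sum_mul_sum]
    rw [Finset.sum_congr rfl fun i _ => e1 i]
    calc ∑ k, ∑ l, N k l = ∑ k, ∑ i, ∑ l, (if nr (x k - X i) < 3 / 2 * d then (1:ℝ) else 0) *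
          (if nr (x l - X i) < 3 / 2 * d then 1 else 0) :=
          Finset.sum_congr rfl fun k _ => Finset.sum_comm
      _ = _ := Finset.sum_comm
  -- the sum over pairs
  set W : Fin n → Fin n → ℝ := fun k l => ∑ i, (if nr (x k - X i) ≤ d / 2 then
      (if nr (x l - X i) < 3 / 2 * d then 0 else Tq (x k - x l) u (a k)) else 0) with hW
  have hWs : ∑ k, ∑ l, W k l = SS d X x a u := by
    unfold SS
    calc ∑ k, ∑ l, W k l = ∑ k, ∑ i, ∑ l, (if nr (x k - X i) ≤ d / 2 then
      (if nr (x l - X i) < 3 / 2 * d then 0 else Tq (x k - x l) u (a k)) else 0) :=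
          Finset.sum_congr rfl fun k _ => Finset.sum_comm
      _ = ∑ i, ∑ k, ∑ l, (if nr (x k - X i) ≤ d / 2 then
      (if nr (x l - X i) < 3 / 2 * d then 0 else Tq (x k - x l) u (a k)) else 0) :=
          Finset.sum_comm
      _ = _ := by
          refine Finset.sum_congr rfl fun i _ => Finset.sum_congr rfl fun k _ => ?_
          split_ifs
          · rfl
          · exact Finset.sum_const_zero
  have hI : ∀ k l, -(kap * W k l) ≤ Iv b (a k) (x k) u (x l) + C * K ^ 2 * N k l := by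
    intro k l
    have hCN : 0 ≤ C * K ^ 2 * N k l := mul_nonneg (mul_nonneg hC.le hK2) (hN0 k l)
    by_cases hak : a k = 0
    · have e0 : W k l = 0 := by
        rw [hW]
        dsimp only
        refine Finset.sum_eq_zero fun i _ => ?_
        rw [hak, Tq_zero2]
        simp
      rw [e0, hak, Iv_zero1 h1 hb]
      linarith
    · have hk' : ∃ i, nr (x k - X i) ≤ d / 2 := by
        by_contra h
        push Not at h
        exact hak (hz k h)
      obtain ⟨i, hi⟩ := hk'
      have e0 : W k l = if nr (x l - X i) < 3 / 2 * d then 0 else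
          Tq (x k - x l) u (a k) := by
        rw [hW]
        dsimp only
        rw [Finset.sum_eq_single i]
        · rw [if_pos hi]
        · intro j _ hj
          rw [if_neg]
          rw [not_le]
          have s1 := hX i j (Ne.symm hj)
          have s2 := nr_tri (X i) (x k) (X j)
          rw [nr_comm (X i) (x k)] at s2
          linarith
        · intro h
          exact absurd (Finset.mem_univ i) h
      by_cases hl : nr (x l - X i) < 3 / 2 * d
      · rw [e0, if_pos hl, mul_zero, neg_zero]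
        have h6 := (abs_le.1 (hnear (a k) (x k) u (x l) K (ha k) hu).1).1
        have h7 := hN1 k l i (by linarith) hl
        have h5 : C * K ^ 2 * 1 ≤ C * K ^ 2 * N k l :=
          mul_le_mul_of_nonneg_left h7 (mul_nonneg hC.le hK2)
        linarith
      · rw [e0, if_neg hl]
        have hfar : 2 * b < nr (x k - x l) := by
          have s1 := nr_tri (x l) (x k) (X i)
          rw [nr_comm (x l) (x k)] at s1
          rw [not_lt] at hl
          rw [hbd]
          linarith
        rw [dip_pair h0 h1 h2 h3 hb (a k) (x k) u (x l) hfar, Tq_sym]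
        linarith
  have s1 : -(kap * ∑ k, ∑ l, W k l) ≤ (∑ k, ∑ l, Iv b (a k) (x k) u (x l)) +
      C * K ^ 2 * ∑ k, ∑ l, N k l := by
    have := Finset.sum_le_sum fun k (_ : k ∈ Finset.univ) =>
      Finset.sum_le_sum fun l (_ : l ∈ Finset.univ) => hI k l
    simp only [Finset.sum_add_distrib, Finset.sum_neg_distrib, ← Finset.mul_sum] at this
    exact this
  have hE : ∀ (v w : Fin n → R3), (∀ k m, |v k m| ≤ K) → (∀ k m, |w k m| ≤ K) →
      ∑ k, ∑ l, EE b (v k) (x k) (w l) (x l) ≤ C * K ^ 2 * P := by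
    intro v w hv hw
    rw [hP, Finset.mul_sum]
    refine Finset.sum_le_sum fun k _ => ?_
    rw [Finset.mul_sum]
    refine Finset.sum_le_sum fun l _ => ?_
    by_cases hkl : 2 * b < nr (x k - x l)
    · rw [EE_far h3 hb _ _ _ _ hkl]
      have : (0 : ℝ) ≤ (if nr (x k - x l) < d / 32 then (1 : ℝ) else 0) := by
        split_ifs <;> norm_num
      exact mul_nonneg (mul_nonneg hC.le hK2) this
    · rw [not_lt] at hkl
      rw [if_pos (by rw [hbd] at hkl; linarith), mul_one]
      exact (le_abs_self _).trans (hnear (v k) (x k) (w l) (x l) K (hv k) (hw l)).2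
  have hcr := die_cross h1 h2 h3 hb a x u
  have g1 := hE a a ha ha
  have g2 := hE a (fun _ => u) ha (fun _ => hu)
  have g3 := hE (fun _ => u) (fun _ => u) (fun _ => hu) (fun _ => hu)
  rw [hWs, hNs] at s1
  have hc0 : 0 ≤ C * K ^ 2 * ∑ i, cnt X (3 / 2 * d) x i ^ 2 :=
    mul_nonneg (mul_nonneg hC.le hK2) (Finset.sum_nonneg fun i _ => sq_nonneg _)
  have : 2 * C * K ^ 2 * (∑ i, cnt X (3 / 2 * d) x i ^ 2 + P) =
      2 * (C * K ^ 2 * ∑ i, cnt X (3 / 2 * d) x i ^ 2) + 2 * (C * K ^ 2 * P) := by ring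
  rw [this]
  linarith

theorem DIE (h1 : ST_PHA) (h2 : ST_PHB) (h3 : ST_PHC) (h0 : ST_MVP) (h5 : ST_PCN) :
    ST_DIE := by
  intro d hd hd1
  obtain ⟨C, hC, hkey⟩ := die_key h0 h1 h2 h3 hd
  have hkap : 0 < kap := h3.2.1
  refine ⟨C / kap, by positivity, fun n M X x e a K hX hD he ha hz => ?_⟩
  rcases Nat.eq_zero_or_pos n with hn | hn
  · subst hn
    simp [cnt, Rem]
  have hK : 0 ≤ K := (abs_nonneg _).trans (ha ⟨0, hn⟩ 0)
  have hpc := h5 d n M X x hd hD
  set P : ℝ := ∑ k, ∑ l, (if nr (x k - x l) < d / 32 then (1 : ℝ) else 0) with hP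
  have hPn : (n : ℝ) ≤ P := by
    have e1 : (n : ℝ) = ∑ _k : Fin n, (1 : ℝ) := by simp
    rw [e1, hP]
    refine Finset.sum_le_sum fun k _ => ?_
    refine le_trans (le_of_eq ?_) (Finset.single_le_sum
      (f := fun l => if nr (x k - x l) < d / 32 then (1 : ℝ) else 0)
      (fun l _ => by split_ifs <;> norm_num) (Finset.mem_univ k))
    rw [if_pos]
    rw [sub_self]
    have : nr (0 : R3) = 0 := by simp [nr]
    rw [this]
    positivity
  have hR0 : 0 ≤ Rem (d / 8) x := by
    by_contra hcon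
    rw [not_le] at hcon
    have : d / 8 * Rem (d / 8) x < 0 := mul_neg_of_pos_of_neg (by positivity) hcon
    linarith
  have hPR : P ≤ n + Rem (d / 8) x := by
    have : d / 8 * Rem (d / 8) x ≤ 1 * Rem (d / 8) x :=
      mul_le_mul_of_nonneg_right (by linarith) hR0
    linarith
  have hu1 : ∀ m, |(fun m => K * e m : R3) m| ≤ K := by
    intro m
    simp only
    rw [abs_mul, abs_of_nonneg hK]
    calc K * |e m| ≤ K * 1 := mul_le_mul_of_nonneg_left (he m) hK
      _ = K := mul_one K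
  have hu2 : ∀ m, |(fun m => -K * e m : R3) m| ≤ K := by
    intro m
    simp only
    rw [abs_mul, abs_neg, abs_of_nonneg hK]
    calc K * |e m| ≤ K * 1 := mul_le_mul_of_nonneg_left (he m) hK
      _ = K := mul_one K
  have k1 := hkey n M X x a (fun m => K * e m) K hX hu1 ha hz
  have k2 := hkey n M X x a (fun m => -K * e m) K hX hu2 ha hz
  rw [SS_smul] at k1 k2
  have hS : (∑ i, ∑ k, (if nr (x k - X i) ≤ d / 2 then
      (∑ l, if nr (x l - X i) < 3 / 2 * d then 0 else Tq (x k - x l) e (a k)) else 0)) =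
      SS d X x a e := rfl
  rw [hS]
  rcases hK.eq_or_lt with hK0 | hKp
  · have ha0 : ∀ k, a k = 0 := by
      intro k
      funext m
      have := ha k m
      rw [← hK0] at this
      exact abs_nonpos_iff.1 this
    have : SS d X x a e = 0 := by
      unfold SS
      refine Finset.sum_eq_zero fun i _ => Finset.sum_eq_zero fun k _ => ?_
      simp [ha0, Tq_zero2]
    rw [this, ← hK0]
    simp
  · set c2 := ∑ i, cnt X (3 / 2 * d) x i ^ 2 with hc2
    have hQ : C * K ^ 2 * (c2 + P) ≤ C * K ^ 2 * (c2 + n + Rem (d / 8) x) :=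
      mul_le_mul_of_nonneg_left (by linarith) (by positivity)
    have m1 : |kap * (K * SS d X x a e)| ≤ C * K ^ 2 * (c2 + n + Rem (d / 8) x) := by
      rw [abs_le]
      constructor <;> linarith
    rw [abs_mul, abs_mul, abs_of_pos hkap, abs_of_pos hKp] at m1
    have m2 : K * (kap * |SS d X x a e|) ≤ K * (C * K * (c2 + n + Rem (d / 8) x)) := by
      calc _ = kap * (K * |SS d X x a e|) := by ring
        _ ≤ _ := m1
        _ = _ := by ring
    have m3 := le_of_mul_le_mul_left m2 hKp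
    rw [div_mul_eq_mul_div, div_mul_eq_mul_div, le_div_iff₀ hkap]
    linarith

end Pool.Agent.Helper19.HW
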